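import Pool.Agent.Y45.MON.StmG

/-!
# Project MON, job G5 (helper275): gauge arguments and comparison of the exponents
-/

set_option autoImplicit false

namespace Pool.Agent.Y275.MON

open Pool.Agent.Y45.MON

/-! ### Comparison of the exponents -/

theorem mod_four {r : ℕ} {μ : Fin r → ℕ → ℕ} (h4 : ∀ j l, μ j (l + 4) = μ j l) (j : Fin r)
    (l : ℕ) : μ j l = μ j (l % 4) := by
  have h : ∀ q a : ℕ, μ j (a + 4 * q) = μ j a := by
    intro q
    induction q with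
    | zero => intro a; simp
    | succ q ih =>
      intro a
      rw [show a + 4 * (q + 1) = (a + 4 * q) + 4 by ring, h4, ih]
  have := h (l / 4) (l % 4)
  rwa [Nat.mod_add_div] at this

theorem mu_inj {r : ℕ} {μ : Fin r → ℕ → ℕ} (h4 : ∀ j l, μ j (l + 4) = μ j l)
    (hi : ∀ j j' l l', l < 4 → l' < 4 → μ j l = μ j' l' → j = j' ∧ l = l') {j j' : Fin r}
    {k l : ℕ} (h : μ j k = μ j' l) : j = j' ∧ k % 4 = l % 4 := by
  rw [mod_four h4 j k, mod_four h4 j' l] at h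
  exact hi _ _ _ _ (Nat.mod_lt _ (by norm_num)) (Nat.mod_lt _ (by norm_num)) h

theorem zero_of {B C : ℕ} (hBC : C < B) {a b c : ℤ} (hc : c = B * a - B * b) (h : |c| ≤ C) :
    a = b := by
  by_contra hab
  have h1 : 1 ≤ |a - b| := Int.one_le_abs (sub_ne_zero.2 hab)
  have h2 : |c| = B * |a - b| := by
    rw [hc, ← mul_sub, abs_mul, abs_of_nonneg (Int.natCast_nonneg _)]
  have h3 : (B : ℤ) ≤ B * |a - b| := le_mul_of_one_le_right (Int.natCast_nonneg _) h1
  have h4 : (C : ℤ) < B := by exact_mod_cast hBC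
  linarith

theorem mu_key {r : ℕ} {μ : Fin r → ℕ → ℕ} (hp : ∀ j l, (μ j l).Prime)
    (h4 : ∀ j l, μ j (l + 4) = μ j l)
    (hi : ∀ j j' l l', l < 4 → l' < 4 → μ j l = μ j' l' → j = j' ∧ l = l') {e f : ℤ}
    (he : e ≠ 0) (hf : f ≠ 0) {j j' : Fin r} {k k' l l' : ℕ} (hk : k % 4 ≠ k' % 4)
    (h1 : e * μ j k = f * μ j' l) (h2 : e * μ j k' = f * μ j' l') :
    j = j' ∧ k % 4 = l % 4 ∧ e = f := by
  have h3 : (μ j k : ℤ) * μ j' l' = μ j k' * μ j' l := by
    have : e * f * ((μ j k : ℤ) * μ j' l') = e * f * (μ j k' * μ j' l) := by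
      calc e * f * ((μ j k : ℤ) * μ j' l') = (e * μ j k) * (f * μ j' l') := by ring
        _ = (f * μ j' l) * (e * μ j k') := by rw [h1, h2]
        _ = _ := by ring
    exact mul_left_cancel₀ (mul_ne_zero he hf) this
  have h5 : μ j k * μ j' l' = μ j k' * μ j' l := by exact_mod_cast h3
  have h6 : μ j k ∣ μ j k' * μ j' l := h5 ▸ dvd_mul_right _ _
  rcases (hp j k).dvd_mul.1 h6 with h7 | h7
  · have := (Nat.prime_dvd_prime_iff_eq (hp j k) (hp j k')).1 h7
    exact absurd (mu_inj h4 hi this).2 hk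
  · have h8 := (Nat.prime_dvd_prime_iff_eq (hp j k) (hp j' l)).1 h7
    obtain ⟨a, b⟩ := mu_inj h4 hi h8
    refine ⟨a, b, ?_⟩
    rw [h8] at h1
    have : ((μ j' l : ℕ) : ℤ) ≠ 0 := by exact_mod_cast (hp j' l).ne_zero
    exact mul_right_cancel₀ this h1

theorem t_Pat : PatStmt := by
  intro r μ hp h4 hi B C hBC e e' he he' j j' k0 σ
  constructor
  · intro h
    obtain ⟨l, hl, h1⟩ := h k0 le_rfl (by omega)
    obtain ⟨l', hl', h2⟩ := h (k0 + 1) (by omega) (by omega)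
    have e1 : e * μ j k0 = e' * μ j' l := zero_of hBC (by ring) h1
    have e2 : e * μ j (k0 + 1) = e' * μ j' l' := zero_of hBC (by ring) h2
    obtain ⟨a, b, c⟩ := mu_key hp h4 hi he he' (by omega) e1 e2
    exact ⟨a, c, by omega⟩
  · intro h
    obtain ⟨l, hl, h1⟩ := h k0 le_rfl (by omega)
    obtain ⟨l', hl', h2⟩ := h (k0 + 1) (by omega) (by omega)
    have e1 : e * μ j k0 = (-e') * μ j' (3 * l + 2) := zero_of hBC (by ring) h1
    have e2 : e * μ j (k0 + 1) = (-e') * μ j' (3 * l' + 2) := zero_of hBC (by ring) h2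
    obtain ⟨a, b, c⟩ := mu_key hp h4 hi he (neg_ne_zero.2 he') (by omega) e1 e2
    obtain ⟨a', b', c'⟩ := mu_key hp h4 hi he (neg_ne_zero.2 he') (by omega) e2 e1
    omega

/-! ### The gauge argument -/

section
variable {G : Type} [Group G] {x : G}

/-- The malnormality of `⟨x⟩`. -/
theorem mal (hx : ¬ IsOfFinOrder x)
    (hm : ∀ g : G, g ∉ Subgroup.zpowers x → ∀ a b : ℤ, x ^ a * g = g * x ^ b → a = 0) {c : G}
    (hc : c ∉ Subgroup.zpowers x) {a b a' b' : ℤ} (h : x ^ a * c * x ^ b = x ^ a' * c * x ^ b') :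
    a = a' ∧ b = b' := by
  have h1 : x ^ (a - a') * c = c * x ^ (b' - b) := by
    rw [sub_eq_neg_add, zpow_add, sub_eq_add_neg, zpow_add, mul_assoc, eq_comm]
    have h2 : c * x ^ b' = x ^ (-a') * (x ^ a * c * x ^ b) := by
      rw [h, zpow_neg]
      group
    rw [← mul_assoc, h2]
    group
  have h2 := hm c hc _ _ h1
  have h3 : a = a' := by omega
  refine ⟨h3, ?_⟩
  rw [h3] at h
  have h4 : x ^ b = x ^ b' := mul_left_cancel h
  exact (injective_zpow_iff_not_isOfFinOrder.2 hx) h4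

/-- One step: the connectors. -/
theorem step_eq {p p' q q' c c' g : G} {e s s' : ℤ} (h1 : q = p * c * x ^ e)
    (h2 : q' = p' * c' * x ^ e) (h3 : x ^ s = p'⁻¹ * (g * p)) (h4 : x ^ s' = q'⁻¹ * (g * q)) :
    c' = x ^ s * c * x ^ (-s') := by
  have h5 : g * p = p' * x ^ s := by rw [h3]; group
  have h6 : g * q = q' * x ^ s' := by rw [h4]; group
  rw [h1, h2] at h6
  have h7 : p' * (x ^ s * c * x ^ e) = p' * (c' * x ^ e * x ^ s') := by
    calc p' * (x ^ s * c * x ^ e) = (p' * x ^ s) * c * x ^ e := by group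
      _ = g * p * c * x ^ e := by rw [h5]
      _ = g * (p * c * x ^ e) := by group
      _ = _ := by rw [h6]; group
  have h8 := mul_left_cancel h7
  have h9 : x ^ e * x ^ s' = x ^ s' * x ^ e := by rw [← zpow_add, ← zpow_add, add_comm]
  rw [mul_assoc c', h9, ← mul_assoc] at h8
  have h10 := mul_right_cancel h8
  rw [h10, zpow_neg]
  group

end

theorem t_Gauge2 : Gauge2Stmt := by
  intro G _ x hx hm α hα φ v v0 hv g k0 l0 hkl h
  have hα' : α⁻¹ ∉ Subgroup.zpowers x := fun h => hα (by simpa using Subgroup.inv_mem _ h)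
  obtain ⟨R, hR, hR2⟩ : ∃ R ≤ 1, (k0 + R + 1) % 2 = 0 :=
    ⟨(k0 + 1) % 2, by omega, by omega⟩
  obtain ⟨s, hs⟩ := h R (by omega)
  obtain ⟨s', hs'⟩ := h (R + 1) (by omega)
  have h1 := hv (k0 + R + 1)
  have h2 := hv (l0 + R + 1)
  rw [if_pos hR2, if_pos hR2] at h1
  rw [if_pos (by omega), if_pos (by omega)] at h2
  have h3 : α = x ^ s * α * x ^ (-s') := step_eq h1 h2 hs hs'
  have h4 : x ^ (0 : ℤ) * α * x ^ (0 : ℤ) = x ^ s * α * x ^ (-s') := by
    rw [← h3]; simp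
  obtain ⟨h5, -⟩ := mal hx hm hα h4
  subst h5
  have hev : ∀ q, v (2 * q) = v 2 ^ q := by
    have e2 : v 2 = α * x ^ φ * α⁻¹ * x ^ (-φ) := by
      rw [hv 1, hv 0, v0]
      simp
    intro q
    induction q with
    | zero => simpa using v0
    | succ q ih =>
      have g1 := hv (2 * q)
      have g2 := hv (2 * q + 1)
      rw [if_pos (by omega), if_pos (by omega)] at g1
      rw [if_neg (by omega), if_neg (by omega)] at g2
      rw [show 2 * (q + 1) = 2 * q + 1 + 1 by ring, g2, g1, ih, pow_succ, e2]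
      group
  obtain ⟨a, ha⟩ : ∃ a, k0 + R + 1 = 2 * a := ⟨(k0 + R + 1) / 2, by omega⟩
  obtain ⟨b, hb⟩ : ∃ b, l0 + R + 1 = 2 * b := ⟨(l0 + R + 1) / 2, by omega⟩
  have hs : x ^ (0 : ℤ) = (v (l0 + R + 1))⁻¹ * (g * v (k0 + R + 1)) := hs
  rw [ha, hb, hev, hev, zpow_zero] at hs
  refine ⟨(b : ℤ) - a, ?_⟩
  have h6 : g * v 2 ^ a = v 2 ^ b := (inv_mul_eq_one.1 hs.symm).symm
  rw [zpow_sub, zpow_natCast, zpow_natCast, ← h6]
  group

theorem t_Gauge4 : Gauge4Stmt := by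
  intro G _ x hx hm α β α' β' δ hδ hα hαδ hβ e he v v' v0 v0' hv hv' g k0 l0 hkl h
  have he4 : ∀ q k, e (k + 4 * q) = e k := by
    intro q
    induction q with
    | zero => intro k; simp
    | succ q ih => intro k; rw [show k + 4 * (q + 1) = k + 4 * q + 4 by ring, he, ih]
  have hem : ∀ k, e k = e (k % 4) := fun k => by
    conv_lhs => rw [← Nat.mod_add_div k 4]
    exact he4 _ _
  obtain ⟨R, hR, hR4⟩ : ∃ R ≤ 3, (k0 + R + 1) % 4 = 0 :=
    ⟨3 - k0 % 4, by omega, by omega⟩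
  obtain ⟨s0, hs0⟩ := h R (by omega)
  obtain ⟨s1, hs1⟩ := h (R + 1) (by omega)
  obtain ⟨s2, hs2⟩ := h (R + 2) (by omega)
  obtain ⟨s3, hs3⟩ := h (R + 3) (by omega)
  obtain ⟨s4, hs4⟩ := h (R + 4) (by omega)
  have stp : ∀ t ≤ 3, ∀ s s' : ℤ, x ^ s = (v' (l0 + R + t + 1))⁻¹ * (g * v (k0 + R + t + 1)) →
      x ^ s' = (v' (l0 + R + t + 1 + 1))⁻¹ * (g * v (k0 + R + t + 1 + 1)) →
      cs4 δ α' β' t = x ^ s * cs4 δ α β t * x ^ (-s') := by
    intro t ht s s' h1 h2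
    have e1 : (k0 + R + t + 1) % 4 = t := by omega
    have e2 : (l0 + R + t + 1) % 4 = t := by omega
    have c1 : cs4 δ α β (k0 + R + t + 1) = cs4 δ α β t := by
      unfold cs4; rw [e1, Nat.mod_eq_of_lt (show t < 4 by omega)]
    have c2 : cs4 δ α' β' (l0 + R + t + 1) = cs4 δ α' β' t := by
      unfold cs4; rw [e2, Nat.mod_eq_of_lt (show t < 4 by omega)]
    have h3 := hv (k0 + R + t + 1)
    have h4 := hv' (l0 + R + t + 1)
    rw [c1, hem, e1] at h3
    rw [c2, hem, e2] at h4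
    exact step_eq h3 h4 h1 h2
  have A := stp 0 (by omega) s0 s1 hs0 hs1
  have B := stp 1 (by omega) s1 s2 hs1 hs2
  have C := stp 2 (by omega) s2 s3 hs2 hs3
  have D := stp 3 (by omega) s3 s4 hs3 hs4
  have A : α' ^ δ = x ^ s0 * α ^ δ * x ^ (-s1) := A
  have B : β' = x ^ s1 * β * x ^ (-s2) := B
  have C : α'⁻¹ = x ^ s2 * α⁻¹ * x ^ (-s3) := C
  have D : β'⁻¹ = x ^ s3 * β⁻¹ * x ^ (-s4) := D
  have D' : β' = x ^ s4 * β * x ^ (-s3) := by
    rw [← inv_inv β', D, zpow_neg, zpow_neg]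
    group
  have C' : α' = x ^ s3 * α * x ^ (-s2) := by
    rw [← inv_inv α', C, zpow_neg, zpow_neg]
    group
  obtain ⟨e14, e23⟩ := mal hx hm hβ (B.symm.trans D')
  have e23 : s2 = s3 := by omega
  subst e23
  have A' : α' ^ δ = x ^ s2 * α ^ δ * x ^ (-s2) := by
    rcases hδ with rfl | rfl
    · rw [pow_one, pow_one, C']
    · rw [C', pow_two, pow_two, zpow_neg]
      group
  obtain ⟨e02, e12⟩ := mal hx hm hαδ (A.symm.trans A')
  have e12 : s1 = s2 := by omega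
  subst e12
  subst e02
  have hc : ∀ k, cs4 δ α' β' k = x ^ s0 * cs4 δ α β k * x ^ (-s0) := by
    intro k
    unfold cs4
    split_ifs
    · exact A
    · exact B
    · exact C
    · rw [B, zpow_neg]
      group
  have hv'' : ∀ l, v' l = x ^ s0 * v l * x ^ (-s0) := by
    intro l
    induction l with
    | zero => rw [v0, v0', zpow_neg]; group
    | succ l ih =>
      rw [hv', hv, ih, hc, zpow_neg]
      have : x ^ s0 * x ^ e l = x ^ e l * x ^ s0 := by rw [← zpow_add, ← zpow_add, add_comm]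
      calc x ^ s0 * v l * (x ^ s0)⁻¹ * (x ^ s0 * cs4 δ α β l * (x ^ s0)⁻¹) * x ^ e l
          = x ^ s0 * v l * cs4 δ α β l * (x ^ s0)⁻¹ * x ^ e l := by group
        _ = x ^ s0 * v l * cs4 δ α β l * (x ^ s0)⁻¹ * (x ^ e l * x ^ s0) * (x ^ s0)⁻¹ := by group
        _ = _ := by rw [← this]; group
  have hadd : ∀ q j, v (4 * q + j) = v (4 * q) * v j := by
    intro q j
    induction j with
    | zero => rw [v0]; simp
    | succ j ih =>
      have c1 : cs4 δ α β (4 * q + j) = cs4 δ α β j := by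
        unfold cs4; rw [show (4 * q + j) % 4 = j % 4 by omega]
      rw [← add_assoc, hv, hv, ih, c1, show 4 * q + j = j + 4 * q by ring, he4]
      group
  have hev : ∀ q, v (4 * q) = v 4 ^ q := by
    intro q
    induction q with
    | zero => simpa using v0
    | succ q ih => rw [show 4 * (q + 1) = 4 * q + 4 by ring, hadd, ih, pow_succ]
  obtain ⟨a, ha⟩ : ∃ a, k0 + R + 1 = 4 * a := ⟨(k0 + R + 1) / 4, by omega⟩
  obtain ⟨b, hb⟩ : ∃ b, l0 + R + 1 = 4 * b := ⟨(l0 + R + 1) / 4, by omega⟩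
  have hs0 : x ^ s0 = (v' (l0 + R + 1))⁻¹ * (g * v (k0 + R + 1)) := hs0
  refine ⟨s0, (b : ℤ) - a, C', B, ?_⟩
  have h6 : g * v (k0 + R + 1) = x ^ s0 * v (l0 + R + 1) := by
    calc g * v (k0 + R + 1) = v' (l0 + R + 1) * x ^ s0 := by rw [hs0]; group
      _ = _ := by rw [hv'', zpow_neg]; group
  rw [ha, hb, hev, hev] at h6
  rw [zpow_sub, zpow_natCast, zpow_natCast, ← mul_assoc, ← h6]
  group

end Pool.Agent.Y275.MON
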